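import Pool.Agent.W564.SC.Lib
import Pool.Agent.TH382.HS.Limit

/-!
# The closing lemma at points which are limits of first returns
-/

set_option autoImplicit false

open scoped Manifold ContDiff Topology
open Filter Set Metric

universe u

namespace Pool.Agent.K6.H72.HM

open Pool.Agent.H718R2.G Pool.Agent.W564.SC

/-- `z` is a limit of points `w` for which the first return to a fixed neighbourhood `W` of `z` is close
to `z`. -/
def GapReturns {N : Type*} [TopologicalSpace N] (F : N → N) (z : N) : Prop :=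
  ∃ W ∈ 𝓝 z, ∀ V ∈ 𝓝 z, ∃ w ∈ V, ∃ T : ℕ, 1 ≤ T ∧ F^[T] w ∈ V ∧ ∀ t, 0 < t → t < T → F^[t] w ∉ W

theorem closable_of_gap {n : ℕ} {N : Type u} [TopologicalSpace N] [T2Space N] [CompactSpace N]
    [ChartedSpace (V n) N] [IsManifold (𝓡 n) ∞ N] {r : ℕ∞} (hr : 1 ≤ r) (F : DiffM n N r) (z : N)
    (hz : GapReturns F z) : Closable n N r F z := by
  obtain ⟨W, hW, hgap⟩ := hz
  intro U hU hFU
  obtain ⟨χ, hχ⟩ := Pool.Agent.W699.SC.gc n N z
  have hfam : IsFam n N r (fun _ : ℝ => F) := by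
    intro y
    exact F.contMDiff.contMDiffAt.comp _ contMDiffAt_snd
  obtain ⟨k, hk, κ, hκ, hcl⟩ := t_CL n N r hr ℝ (fun _ => F) hfam χ z hχ U hU hFU
  have hcont : ContinuousAt χ z := χ.continuousAt hχ.src
  -- a chart ball inside `W`
  obtain ⟨ρ0, hρ0, hball⟩ : ∃ ρ0 : ℝ, 0 < ρ0 ∧ ∀ y ∈ χ.source, ‖χ y‖ < ρ0 → y ∈ W := by
    have h1 : χ.target ∈ 𝓝 (χ z) := χ.open_target.mem_nhds (χ.map_source hχ.src)
    have h2 : ContinuousAt χ.symm (χ z) := χ.continuousAt_symm (χ.map_source hχ.src)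
    have h3 : ∀ᶠ v in 𝓝 (χ z), χ.symm v ∈ W := by
      apply h2.eventually_mem
      rw [χ.left_inv hχ.src]
      exact hW
    rw [hχ.zero] at h3
    obtain ⟨ε, hε, h4⟩ := Metric.eventually_nhds_iff.1 h3
    refine ⟨ε, hε, fun y hy hn => ?_⟩
    have := h4 (y := χ y) (by rw [dist_zero_right]; exact hn)
    rwa [χ.left_inv hy] at this
  set ρ := min (ρ0 / 4) (κ / 2) with hρ
  have hρpos : 0 < ρ := lt_min (by linarith) (half_pos hκ)
  have hρκ : ρ < κ := (min_le_right _ _).trans_lt (half_lt_self hκ)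
  set ε := min (min ρ κ) (κ * ρ ^ k / 2) with hε
  have hεpos : 0 < ε := lt_min (lt_min hρpos hκ) (by positivity)
  have hV : {y : N | y ∈ χ.source ∧ ‖χ y‖ < ε} ∈ 𝓝 z := by
    have h5 : χ.source ∈ 𝓝 z := χ.open_source.mem_nhds hχ.src
    have h7 : ∀ᶠ y in 𝓝 z, ‖χ y‖ < ε := by
      have h8 := hcont.tendsto.norm
      rw [hχ.zero, norm_zero] at h8
      exact h8.eventually (gt_mem_nhds hεpos)
    filter_upwards [h5, h7] with y hy1 hy2
    exact ⟨hy1, hy2⟩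
  obtain ⟨w, ⟨hw1, hw2⟩, T, hT, ⟨hT1, hT2⟩, hgapT⟩ := hgap _ hV
  have e1 : ε ≤ ρ := (min_le_left _ _).trans (min_le_left _ _)
  have e2 : ε ≤ κ := (min_le_left _ _).trans (min_le_right _ _)
  have e3 : ε ≤ κ * ρ ^ k / 2 := min_le_right _ _
  have e4 : ρ ≤ ρ0 / 4 := min_le_left _ _
  refine hcl 0 w ρ T (by rw [norm_zero]; exact hκ) hw1 (hw2.trans_le e2) hρpos hρκ hT hT1 ?_ ?_
  · show ‖χ (F^[T] w) - χ w‖ < _
    have := norm_sub_le (χ (F^[T] w)) (χ w)
    linarith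
  · intro i hi0 hiT hsrc
    have hsrc' : F^[i] w ∈ χ.source := hsrc
    show 2 * ρ ≤ ‖χ (F^[i] w) - χ w‖
    have h1 : ρ0 ≤ ‖χ (F^[i] w)‖ := by
      by_contra h
      push Not at h
      exact hgapT i hi0 hiT (hball _ hsrc' h)
    have h2 := norm_sub_norm_le (χ (F^[i] w)) (χ w)
    linarith

end Pool.Agent.K6.H72.HM
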