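import Pool.Agent.K6.H72.HM.Gap

/-!
# Homoclinic points of normally hyperbolic sets with arbitrary dynamics are limits of first returns
-/

set_option autoImplicit false

open scoped Topology
open Filter Set Metric

universe u v

namespace Pool.Agent.K6.H72.HM

/-- A compact normally hyperbolic set of period `p` with dynamics `f` (topologically trivial, not
necessarily smooth): in the coordinates `φ(x, a, b)`, `x ∈ X`, `‖a‖, ‖b‖ ≤ 1`, near the set
`{φ(x, 0, 0)}` the map `F^p` is `(x, a, b) ↦ (f x, A_x a, C_x⁻¹ b)` with `‖A_x‖, ‖C_x‖ ≤ l < 1`.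
(`f` is arbitrary.) -/
structure NormHyp {N X Es Eu : Type*} [TopologicalSpace N] [TopologicalSpace X]
    [NormedAddCommGroup Es] [NormedSpace ℝ Es] [NormedAddCommGroup Eu] [NormedSpace ℝ Eu]
    (F : N → N) (p : ℕ) (f : X → X) (A : X → Es →L[ℝ] Es) (C : X → Eu →L[ℝ] Eu)
    (φ : X × Es × Eu → N) : Prop where
  per : 1 ≤ p
  cont : ContinuousOn φ {q | ‖q.2.1‖ ≤ 1 ∧ ‖q.2.2‖ ≤ 1}
  contr : ∃ l : ℝ, l < 1 ∧ ∀ x, ‖A x‖ ≤ l ∧ ‖C x‖ ≤ l
  conj : ∀ x a b, ‖a‖ ≤ 1 → ‖b‖ ≤ 1 → F^[p] (φ (x, a, C x b)) = φ (f x, A x a, b)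

/-- `z` is a homoclinic point: some forward iterate of `z` lies on the local stable fibre of `x₊`, some
backward iterate of `z` lies on the local unstable fibre of `x₋`, `z` does not lie on the normally
hyperbolic set, and orbits of `f` lead from any neighbourhood of `x₊` to any neighbourhood of `x₋`, in
arbitrarily long times. -/
structure HomPt {N X Es Eu : Type*} [TopologicalSpace N] [TopologicalSpace X]
    [NormedAddCommGroup Es] [NormedAddCommGroup Eu]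
    (F : N → N) (f : X → X) (φ : X × Es × Eu → N) (z : N) (xp xm : X) : Prop where
  stable : ∃ (R : ℕ) (a : Es), ‖a‖ ≤ 1 ∧ F^[R] z = φ (xp, a, 0)
  unstable : ∃ (R : ℕ) (b : Eu), ‖b‖ ≤ 1 ∧ F^[R] (φ (xm, 0, b)) = z
  off : ∀ (j : ℕ) (x : X), F^[j] (φ (x, 0, 0)) ≠ z
  leads : ∀ U ∈ 𝓝 xp, ∀ U' ∈ 𝓝 xm, ∀ n₀ : ℕ, ∃ n, n₀ ≤ n ∧ ∃ x ∈ U, f^[n] x ∈ U'

section
variable {N X Es Eu : Type*} [TopologicalSpace N] [TopologicalSpace X]
    [NormedAddCommGroup Es] [NormedSpace ℝ Es] [NormedAddCommGroup Eu] [NormedSpace ℝ Eu]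
    {F : N → N} {p : ℕ} {f : X → X} {A : X → Es →L[ℝ] Es} {C : X → Eu →L[ℝ] Eu}
    {φ : X × Es × Eu → N}

/-- passing the normally hyperbolic set -/
theorem pass {l : ℝ} (hl0 : 0 ≤ l) (hl : l < 1) (hAC : ∀ x, ‖A x‖ ≤ l ∧ ‖C x‖ ≤ l)
    (hconj : ∀ x a b, ‖a‖ ≤ 1 → ‖b‖ ≤ 1 → F^[p] (φ (x, a, C x b)) = φ (f x, A x a, b)) (n : ℕ) :
    ∀ (x : X) (a0 : Es) (b0 : Eu), ‖a0‖ ≤ 1 → ‖b0‖ ≤ 1 → ∃ (a : ℕ → Es) (b : ℕ → Eu),
      a 0 = a0 ∧ b n = b0 ∧ (∀ i ≤ n, ‖a i‖ ≤ l ^ i * ‖a0‖) ∧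
      (∀ i ≤ n, ‖b i‖ ≤ l ^ (n - i) * ‖b0‖) ∧
      ∀ i ≤ n, F^[p * i] (φ (x, a0, b 0)) = φ (f^[i] x, a i, b i) := by
  induction n with
  | zero =>
    intro x a0 b0 ha hb
    refine ⟨fun _ => a0, fun _ => b0, rfl, rfl, ?_, ?_, ?_⟩
    · intro i hi
      have : i = 0 := by omega
      simp [this]
    · intro i hi
      have : i = 0 := by omega
      simp [this]
    · intro i hi
      have : i = 0 := by omega
      simp [this]
  | succ n ih =>
    intro x a0 b0 ha hb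
    have h1 : ‖A x a0‖ ≤ l * ‖a0‖ := ((A x).le_opNorm a0).trans
      (mul_le_mul_of_nonneg_right (hAC x).1 (norm_nonneg _))
    have h1' : ‖A x a0‖ ≤ 1 := by nlinarith [norm_nonneg a0]
    obtain ⟨a, b, h2, h3, h4, h5, h6⟩ := ih (f x) (A x a0) b0 h1' hb
    have hb0 : ‖b 0‖ ≤ 1 := by
      have h7 := h5 0 (Nat.zero_le _)
      have h8 : l ^ (n - 0) ≤ 1 := pow_le_one₀ hl0 hl.le
      have h9 : 0 ≤ l ^ (n - 0) := pow_nonneg hl0 _
      nlinarith [norm_nonneg b0]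
    refine ⟨fun i => if i = 0 then a0 else a (i - 1), fun i => if i = 0 then C x (b 0) else b (i - 1),
      by simp, by simp [h3], ?_, ?_, ?_⟩
    · intro i hi
      rcases i with _ | i
      · simp
      · simp only [Nat.succ_ne_zero, if_false, Nat.add_sub_cancel]
        calc ‖a i‖ ≤ l ^ i * ‖A x a0‖ := h4 i (by omega)
          _ ≤ l ^ i * (l * ‖a0‖) := mul_le_mul_of_nonneg_left h1 (pow_nonneg hl0 _)
          _ = l ^ (i + 1) * ‖a0‖ := by ring
    · intro i hi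
      rcases i with _ | i
      · simp only [if_true]
        have h7 := h5 0 (Nat.zero_le _)
        calc ‖C x (b 0)‖ ≤ ‖C x‖ * ‖b 0‖ := (C x).le_opNorm _
          _ ≤ l * (l ^ (n - 0) * ‖b0‖) := mul_le_mul (hAC x).2 h7 (norm_nonneg _) hl0
          _ = l ^ (n + 1 - 0) * ‖b0‖ := by
            rw [Nat.sub_zero, Nat.sub_zero]
            ring
      · simp only [Nat.succ_ne_zero, if_false, Nat.add_sub_cancel]
        have := h5 i (by omega)
        rwa [show n + 1 - (i + 1) = n - i by omega]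
    · intro i hi
      rcases i with _ | i
      · simp
      · simp only [Nat.succ_ne_zero, if_false, Nat.add_sub_cancel, if_true]
        rw [show p * (i + 1) = p * i + p by ring, Function.iterate_add_apply, hconj x a0 (b 0) ha hb0,
          h6 i (by omega), ← Function.iterate_succ_apply]

end

/-- The orbit pieces near the normally hyperbolic set stay away from `z`. -/
theorem stay {N X Es Eu : Type*} [TopologicalSpace N] [T2Space N] [TopologicalSpace X]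
    [CompactSpace X]
    [NormedAddCommGroup Es] [NormedSpace ℝ Es] [NormedAddCommGroup Eu] [NormedSpace ℝ Eu]
    {F : N → N} (hF : Continuous F) {φ : X × Es × Eu → N}
    (hφ : ContinuousOn φ {q | ‖q.2.1‖ ≤ 1 ∧ ‖q.2.2‖ ≤ 1}) {z : N} (j : ℕ)
    (hz : ∀ x : X, F^[j] (φ (x, 0, 0)) ≠ z) :
    ∃ W ∈ 𝓝 z, ∃ δ : ℝ, 0 < δ ∧ δ ≤ 1 ∧ ∀ x a b, ‖a‖ ≤ δ → ‖b‖ ≤ δ → F^[j] (φ (x, a, b)) ∉ W := by
  have hcomp : ContinuousOn (fun q => F^[j] (φ q)) {q : X × Es × Eu | ‖q.2.1‖ ≤ 1 ∧ ‖q.2.2‖ ≤ 1} :=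
    (hF.iterate j).comp_continuousOn hφ
  have h00 : ∀ x : X, (x, (0 : Es), (0 : Eu)) ∈
      {q : X × Es × Eu | ‖q.2.1‖ ≤ 1 ∧ ‖q.2.2‖ ≤ 1} := fun x => by simp
  have hS : IsCompact (range fun x : X => F^[j] (φ (x, 0, 0))) := by
    apply isCompact_range
    have : ContinuousOn (fun x : X => F^[j] (φ (x, 0, 0))) univ :=
      hcomp.comp (f := fun x : X => (x, (0 : Es), (0 : Eu))) (by fun_prop) fun x _ => h00 x
    exact continuousOn_univ.1 this
  obtain ⟨O, W, hO, hW, hSO, hzW, hdis⟩ := hS.separation_of_notMem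
    (x := z) (by rintro ⟨x, hx⟩; exact hz x hx)
  have hev : ∀ᶠ ab : Es × Eu in 𝓝 (0, 0), ∀ x ∈ (univ : Set X),
      (‖ab.1‖ ≤ 1 ∧ ‖ab.2‖ ≤ 1 → F^[j] (φ (x, ab)) ∈ O) := by
    apply isCompact_univ.eventually_forall_of_forall_eventually
    intro x _
    have h1 := (hcomp (x, 0, 0) (h00 x)).eventually_mem (hO.mem_nhds (hSO ⟨x, rfl⟩))
    rw [eventually_nhdsWithin_iff] at h1
    have h2 : Tendsto (fun q : (Es × Eu) × X => (q.2, q.1)) (𝓝 ((0, 0), x)) (𝓝 (x, 0, 0)) := by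
      have : Continuous (fun q : (Es × Eu) × X => (q.2, q.1)) := by fun_prop
      exact this.tendsto _
    exact h2.eventually h1
  obtain ⟨ε, hε, h3⟩ := Metric.eventually_nhds_iff.1 hev
  refine ⟨W, hW.mem_nhds hzW, min (ε / 2) 1, lt_min (half_pos hε) one_pos, min_le_right _ _, ?_⟩
  intro x a b ha hb hmem
  have h4 : dist (a, b) ((0 : Es), (0 : Eu)) < ε := by
    rw [Prod.dist_eq, dist_zero_right, dist_zero_right]
    have := min_le_left (ε / 2) (1 : ℝ)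
    exact max_lt (by linarith) (by linarith)
  have h5 := h3 h4 x (mem_univ _) ⟨ha.trans (min_le_right _ _), hb.trans (min_le_right _ _)⟩
  exact Set.disjoint_left.1 hdis h5 hmem

theorem gapReturns_of_hom {N : Type u} {X Es Eu : Type*} [TopologicalSpace N] [T2Space N]
    [TopologicalSpace X] [CompactSpace X]
    [NormedAddCommGroup Es] [NormedSpace ℝ Es] [NormedAddCommGroup Eu] [NormedSpace ℝ Eu]
    (F : N ≃ₜ N) {p : ℕ} {f : X → X} {A : X → Es →L[ℝ] Es} {C : X → Eu →L[ℝ] Eu}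
    {φ : X × Es × Eu → N} (hN : NormHyp F p f A C φ) {z : N} {xp xm : X}
    (hz : HomPt F f φ z xp xm) : GapReturns F z := by
  obtain ⟨l, hl, hAC⟩ := hN.contr
  have hl0 : 0 ≤ l := (norm_nonneg _).trans (hAC xp).1
  obtain ⟨R1, a0, ha0, hst⟩ := hz.stable
  obtain ⟨R2, b0, hb0, hun⟩ := hz.unstable
  have hFc : Continuous F := F.continuous
  have hp := hN.per
  -- neighbourhood avoiding the normally hyperbolic set
  have hstay := fun j : ℕ => stay hFc hN.cont j (hz.off j)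
  choose W hW δ hδ hδ1 hWδ using hstay
  obtain ⟨δ0, hδ0, hδ0'⟩ : ∃ δ0 : ℝ, 0 < δ0 ∧ ∀ j < p, δ0 ≤ δ j := by
    have hne : (Finset.range p).Nonempty := Finset.nonempty_range_iff.2 (by omega)
    obtain ⟨i, hi, hmin⟩ := Finset.exists_min_image (Finset.range p) δ hne
    exact ⟨δ i, hδ i, fun j hj => hmin j (Finset.mem_range.2 hj)⟩
  have hW0 : (⋂ j ∈ Finset.range p, W j) ∈ 𝓝 z := by
    rw [Filter.biInter_finset_mem]
    exact fun j _ => hW j
  obtain ⟨I, hI⟩ := exists_pow_lt_of_lt_one hδ0 hl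
  have hmid : ∀ (j : ℕ) (x : X) (a : Es) (b : Eu), j < p → ‖a‖ ≤ l ^ I → ‖b‖ ≤ l ^ I →
      F^[j] (φ (x, a, b)) ∉ ⋂ j ∈ Finset.range p, W j := by
    intro j x a b hj ha hb hmem
    refine hWδ j x a b (ha.trans (hI.le.trans (hδ0' j hj))) (hb.trans (hI.le.trans (hδ0' j hj))) ?_
    simp only [mem_iInter] at hmem
    exact hmem j (Finset.mem_range.2 hj)
  -- `z` is not periodic
  have hnp : ∀ t : ℕ, 1 ≤ t → F^[t] z ≠ z := by
    intro t ht htz
    set n := R1 + p * I with hn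
    have hmul : F^[t * n + t * n] z = z := by
      have h1 : Function.IsPeriodicPt F t z := htz
      have h2 := (h1.mul_const n).add (h1.mul_const n)
      exact h2
    set s := t * n + t * n - R1 with hs
    have h1 : n ≤ t * n := Nat.le_mul_of_pos_left n ht
    have hsR : t * n + t * n = s + R1 := by
      have : R1 ≤ t * n + t * n := by omega
      omega
    set i := s / p with hi
    set j := s % p with hj
    have hsij : s = j + p * i := by rw [hi, hj]; exact (Nat.mod_add_div s p).symm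
    have hjp : j < p := Nat.mod_lt _ (by omega)
    have hiI : I ≤ i := by
      rw [hi, Nat.le_div_iff_mul_le (by omega)]
      have : I * p = p * I := by ring
      omega
    obtain ⟨a, b, h2, h3, h4, h5, h6⟩ := pass hl0 hl hAC hN.conj i xp a0 0 ha0 (by simp)
    have h7 : b 0 = 0 := by
      have := h5 0 (Nat.zero_le _)
      simpa using this
    have h8 : b i = 0 := h3
    have h9 := h6 i le_rfl
    rw [h7, ← hst, h8] at h9
    have h10 : F^[j] (φ (f^[i] xp, a i, 0)) = z := by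
      rw [← h9, ← Function.iterate_add_apply, ← Function.iterate_add_apply,
        show j + p * i + R1 = s + R1 by omega, ← hsR]
      exact hmul
    refine hmid j (f^[i] xp) (a i) 0 hjp ?_ (by rw [norm_zero]; exact pow_nonneg hl0 _) ?_
    · calc ‖a i‖ ≤ l ^ i * ‖a0‖ := h4 i le_rfl
        _ ≤ l ^ i * 1 := mul_le_mul_of_nonneg_left ha0 (pow_nonneg hl0 _)
        _ ≤ l ^ I := by rw [mul_one]; exact pow_le_pow_of_le_one hl0 hl.le hiI
    · rw [h10]
      exact mem_of_mem_nhds hW0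
  -- neighbourhood with no short returns
  set J := R1 + R2 + p * I + p with hJ
  obtain ⟨P, hP, hPJ⟩ : ∃ P ∈ 𝓝 z, ∀ t, 0 < t → t ≤ J → ∀ w ∈ P, F^[t] w ∉ P := by
    have h1 : ∀ t, 0 < t → ∃ P ∈ 𝓝 z, ∀ w ∈ P, F^[t] w ∉ P := by
      intro t ht
      obtain ⟨u, v, hu, hv, hzu, hzv, huv⟩ := t2_separation (hnp t ht)
      refine ⟨v ∩ F^[t] ⁻¹' u, inter_mem (hv.mem_nhds hzv)
        ((hFc.iterate t).continuousAt.preimage_mem_nhds (hu.mem_nhds hzu)), ?_⟩
      rintro w ⟨-, hw⟩ ⟨hw', -⟩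
      exact Set.disjoint_left.1 huv hw hw'
    choose P hP hP' using h1
    refine ⟨⋂ t ∈ Finset.Icc 1 J, if h : 0 < t then P t h else univ, ?_, ?_⟩
    · rw [Filter.biInter_finset_mem]
      intro t ht
      rw [Finset.mem_Icc] at ht
      rw [dif_pos (show 0 < t by omega)]
      exact hP t _
    · intro t ht htJ w hw hw'
      simp only [mem_iInter] at hw hw'
      have hm : t ∈ Finset.Icc 1 J := Finset.mem_Icc.2 ⟨ht, htJ⟩
      have h2 := hw t hm
      have h3 := hw' t hm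
      rw [dif_pos ht] at h2 h3
      exact hP' t ht w h2 h3
  refine ⟨P ∩ ⋂ j ∈ Finset.range p, W j, inter_mem hP hW0, ?_⟩
  intro V hV
  have hV' : V ∩ P ∈ 𝓝 z := inter_mem hV hP
  -- the initial point
  obtain ⟨U, hU, δ1, hδ1', hU1⟩ : ∃ U ∈ 𝓝 xp, ∃ δ1 : ℝ, 0 < δ1 ∧ ∀ x ∈ U, ∀ b : Eu, ‖b‖ < δ1 →
      ‖b‖ ≤ 1 → F.symm^[R1] (φ (x, a0, b)) ∈ V ∩ P := by
    have hc : ContinuousOn (fun q => F.symm^[R1] (φ q))
        {q : X × Es × Eu | ‖q.2.1‖ ≤ 1 ∧ ‖q.2.2‖ ≤ 1} :=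
      (F.symm.continuous.iterate R1).comp_continuousOn hN.cont
    have hz0 : F.symm^[R1] (φ (xp, a0, 0)) = z := by
      rw [← hst]
      exact (F.toEquiv.left_inv.iterate R1) z
    have h1 := (hc (xp, a0, 0) ⟨ha0, by simp⟩).eventually_mem (s := V ∩ P) (by
      show V ∩ P ∈ 𝓝 (F.symm^[R1] (φ (xp, a0, 0)))
      rw [hz0]; exact hV')
    rw [eventually_nhdsWithin_iff] at h1
    have h2 : Tendsto (fun q : X × Eu => (q.1, a0, q.2)) (𝓝 (xp, 0)) (𝓝 (xp, a0, 0)) := by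
      have : Continuous (fun q : X × Eu => (q.1, a0, q.2)) := by fun_prop
      exact this.tendsto _
    have h3 := h2.eventually h1
    rw [nhds_prod_eq] at h3
    obtain ⟨P1, hP1, P2, hP2, h4⟩ := Filter.eventually_prod_iff.1 h3
    obtain ⟨ε, hε, h5⟩ := Metric.eventually_nhds_iff.1 hP2
    refine ⟨{x | P1 x}, hP1, ε, hε, fun x hx b hb hb1 => ?_⟩
    exact h4 hx (h5 (by rw [dist_zero_right]; exact hb)) ⟨ha0, hb1⟩
  -- the final point
  obtain ⟨U', hU', δ2, hδ2', hU2⟩ : ∃ U' ∈ 𝓝 xm, ∃ δ2 : ℝ, 0 < δ2 ∧ ∀ x ∈ U', ∀ a : Es, ‖a‖ < δ2 →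
      ‖a‖ ≤ 1 → F^[R2] (φ (x, a, b0)) ∈ V ∩ P := by
    have hc : ContinuousOn (fun q => F^[R2] (φ q))
        {q : X × Es × Eu | ‖q.2.1‖ ≤ 1 ∧ ‖q.2.2‖ ≤ 1} :=
      (F.continuous.iterate R2).comp_continuousOn hN.cont
    have h1 := (hc (xm, 0, b0) ⟨by simp, hb0⟩).eventually_mem (s := V ∩ P) (by
      show V ∩ P ∈ 𝓝 (F^[R2] (φ (xm, 0, b0)))
      rw [hun]; exact hV')
    rw [eventually_nhdsWithin_iff] at h1
    have h2 : Tendsto (fun q : X × Es => (q.1, q.2, b0)) (𝓝 (xm, 0)) (𝓝 (xm, 0, b0)) := by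
      have : Continuous (fun q : X × Es => (q.1, q.2, b0)) := by fun_prop
      exact this.tendsto _
    have h3 := h2.eventually h1
    rw [nhds_prod_eq] at h3
    obtain ⟨P1, hP1, P2, hP2, h4⟩ := Filter.eventually_prod_iff.1 h3
    obtain ⟨ε, hε, h5⟩ := Metric.eventually_nhds_iff.1 hP2
    refine ⟨{x | P1 x}, hP1, ε, hε, fun x hx a ha ha1 => ?_⟩
    exact h4 hx (h5 (by rw [dist_zero_right]; exact ha)) ⟨ha1, hb0⟩
  obtain ⟨m1, hm1⟩ := exists_pow_lt_of_lt_one hδ1' hl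
  obtain ⟨m2, hm2⟩ := exists_pow_lt_of_lt_one hδ2' hl
  obtain ⟨n, hn, x, hxU, hxU'⟩ := hz.leads U hU U' hU' (m1 + m2 + 1)
  obtain ⟨a, b, h2, h3, h4, h5, h6⟩ := pass hl0 hl hAC hN.conj n x a0 b0 ha0 hb0
  have hpow : ∀ {m k : ℕ}, m ≤ k → l ^ k ≤ l ^ m := fun h => pow_le_pow_of_le_one hl0 hl.le h
  have hbn : ∀ i ≤ n, ‖b i‖ ≤ l ^ (n - i) := fun i hi => (h5 i hi).trans
    ((mul_le_mul_of_nonneg_left hb0 (pow_nonneg hl0 _)).trans_eq (mul_one _))
  have han : ∀ i ≤ n, ‖a i‖ ≤ l ^ i := fun i hi => (h4 i hi).trans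
    ((mul_le_mul_of_nonneg_left ha0 (pow_nonneg hl0 _)).trans_eq (mul_one _))
  have hl1 : ∀ k : ℕ, l ^ k ≤ 1 := fun k => pow_le_one₀ hl0 hl.le
  set w := F.symm^[R1] (φ (x, a0, b 0)) with hw
  have hwV : w ∈ V ∩ P := hU1 x hxU (b 0)
    ((hbn 0 (Nat.zero_le _)).trans_lt ((hpow (by omega)).trans_lt hm1))
    ((hbn 0 (Nat.zero_le _)).trans (hl1 _))
  have hR1w : F^[R1] w = φ (x, a0, b 0) := (F.toEquiv.right_inv.iterate R1) _
  have horb : ∀ i ≤ n, ∀ j, F^[j + p * i + R1] w = F^[j] (φ (f^[i] x, a i, b i)) := by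
    intro i hi j
    rw [Function.iterate_add_apply, Function.iterate_add_apply, hR1w, h6 i hi]
  set T := R2 + p * n + R1 with hT
  have hTV : F^[T] w ∈ V ∩ P := by
    rw [hT, horb n le_rfl, h3]
    exact hU2 _ hxU' (a n) ((han n le_rfl).trans_lt ((hpow (by omega)).trans_lt hm2))
      ((han n le_rfl).trans (hl1 _))
  have hT1 : 1 ≤ T := by
    have : 1 ≤ p * n := Nat.mul_pos hp (by omega)
    omega
  refine ⟨w, hwV.1, T, hT1, hTV.1, ?_⟩
  rintro t ht0 htT ⟨hmP, hmW⟩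
  by_cases hc1 : t ≤ J
  · exact hPJ t ht0 hc1 w hwV.2 hmP
  · by_cases hc2 : T - t ≤ J
    · refine hPJ (T - t) (by omega) hc2 _ hmP ?_
      rw [← Function.iterate_add_apply, show T - t + t = T by omega]
      exact hTV.2
    · push Not at hc1 hc2
      set s := t - R1 with hs
      set i := s / p with hi
      set j := s % p with hj
      have hsij : s = j + p * i := by rw [hi, hj]; exact (Nat.mod_add_div s p).symm
      have hjp : j < p := Nat.mod_lt _ (by omega)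
      have htij : t = j + p * i + R1 := by omega
      have hiI : I ≤ i := by
        rw [hi, Nat.le_div_iff_mul_le (by omega)]
        have : I * p = p * I := by ring
        omega
      have hin : i + I ≤ n := by
        have h7 : p * (i + I) ≤ p * n := by
          have : p * (i + I) = p * i + p * I := by ring
          omega
        exact Nat.le_of_mul_le_mul_left h7 (by omega)
      rw [htij, horb i (by omega)] at hmW
      exact hmid j _ (a i) (b i) hjp ((han i (by omega)).trans (hpow hiI))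
        ((hbn i (by omega)).trans (hpow (by omega))) hmW

end Pool.Agent.K6.H72.HM
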