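import Pool.Agent.K6.H72.HM.Hom

/-!
# The closing lemma at homoclinic points of normally hyperbolic sets with arbitrary dynamics
-/

set_option autoImplicit false

open scoped Manifold ContDiff Topology
open Filter Set Metric

universe u v

namespace Pool.Agent.K6.H72.HM

open Pool.Agent.H718R2.G Pool.Agent.W564.SC

/-- `y` is a homoclinic point of some compact normally hyperbolic periodic set of `F` -/
def IsHom {N : Type u} [TopologicalSpace N] (F : N → N) (y : N) : Prop :=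
  ∃ (X Es Eu : Type v) (_ : TopologicalSpace X) (_ : CompactSpace X)
    (_ : NormedAddCommGroup Es) (_ : NormedSpace ℝ Es)
    (_ : NormedAddCommGroup Eu) (_ : NormedSpace ℝ Eu) (p : ℕ) (f : X → X)
    (A : X → Es →L[ℝ] Es) (C : X → Eu →L[ℝ] Eu) (φ : X × Es × Eu → N) (xp xm : X),
    NormHyp F p f A C φ ∧ HomPt F f φ y xp xm

theorem main {n : ℕ} {N : Type u} [TopologicalSpace N] [T2Space N] [CompactSpace N]
    [ChartedSpace (V n) N] [IsManifold (𝓡 n) ∞ N] (r : ℕ∞) (hr : 1 ≤ r) (F : DiffM n N r) (z : N)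
    (h : ∀ U : Set (DiffM n N r), IsOpen[strongTop n N r] U → F ∈ U →
      ∃ F' ∈ U, z ∈ closure {y | IsHom.{u, v} F' y}) :
    ∀ U : Set (DiffM n N r), IsOpen[strongTop n N r] U → F ∈ U → ∃ G ∈ U, IsPer G z := by
  apply Pool.Agent.TH382.HS.closable_of_limit F z
  intro U hU hFU
  obtain ⟨F', hF', hz⟩ := h U hU hFU
  refine ⟨F', hF', closure_mono ?_ hz⟩
  rintro y ⟨X, Es, Eu, _, _, _, _, _, _, p, f, A, C, φ, xp, xm, h1, h2⟩
  exact closable_of_gap hr F' y (gapReturns_of_hom F'.toHomeomorph h1 h2)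

/-- products -/
theorem product {n : ℕ} {N : Type u} [TopologicalSpace N] [T2Space N] [CompactSpace N]
    [ChartedSpace (V n) N] [IsManifold (𝓡 n) ∞ N] (r : ℕ∞) (hr : 1 ≤ r) (F : DiffM n N r)
    {X Y Es Eu : Type*} [TopologicalSpace X] [CompactSpace X] [TopologicalSpace Y]
    [NormedAddCommGroup Es] [NormedSpace ℝ Es] [NormedAddCommGroup Eu] [NormedSpace ℝ Eu]
    (f : X ≃ₜ X) (h : Y → Y)
    (Θ : X × Y → N) (hΘ : Continuous Θ) (hinj : Function.Injective Θ)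
    (hconj : ∀ x y, F (Θ (x, y)) = Θ (f x, h y))
    -- `h` has a periodic saddle `ψ (0, 0)` of period `p`
    (p : ℕ) (hp : 1 ≤ p) (A : Es →L[ℝ] Es) (C : Eu →L[ℝ] Eu) (hA : ‖A‖ < 1) (hC : ‖C‖ < 1)
    (ψ : Es × Eu → Y) (hψ : ContinuousOn ψ {q | ‖q.1‖ ≤ 1 ∧ ‖q.2‖ ≤ 1})
    (hloc : ∀ a b, ‖a‖ ≤ 1 → ‖b‖ ≤ 1 → h^[p] (ψ (a, C b)) = ψ (A a, b))
    -- `y` is a homoclinic point
    (y : Y) (R₁ R₂ : ℕ) (a : Es) (b : Eu) (ha : ‖a‖ ≤ 1) (hb : ‖b‖ ≤ 1)
    (hs : h^[R₁] y = ψ (a, 0)) (hu : h^[R₂] (ψ (0, b)) = y) (hoff : ∀ j, h^[j] (ψ (0, 0)) ≠ y)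
    -- `x` is nonwandering, for times in a residue class modulo `p`
    (x : X) (hx : ∀ W ∈ 𝓝 x, ∀ n₀ : ℕ, ∃ m, n₀ ≤ m ∧ ∃ x' ∈ W, f^[R₁ + p * m + R₂] x' ∈ W) :
    ∀ U : Set (DiffM n N r), IsOpen[strongTop n N r] U → F ∈ U → ∃ G ∈ U, IsPer G (Θ (x, y)) := by
  have hit : ∀ (i : ℕ) (x : X) (y : Y), F^[i] (Θ (x, y)) = Θ (f^[i] x, h^[i] y) := by
    intro i
    induction i with
    | zero => intro x y; rfl
    | succ i ih =>
      intro x y
      rw [Function.iterate_succ_apply', ih, hconj, Function.iterate_succ_apply',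
        Function.iterate_succ_apply']
  have h1 : NormHyp F.toHomeomorph p (f^[p]) (fun _ : X => A) (fun _ : X => C)
      (fun q : X × Es × Eu => Θ (q.1, ψ q.2)) := by
    refine ⟨hp, ?_, ⟨max ‖A‖ ‖C‖, max_lt hA hC, fun _ => ⟨le_max_left _ _, le_max_right _ _⟩⟩, ?_⟩
    · apply hΘ.comp_continuousOn
      apply continuousOn_fst.prodMk
      exact hψ.comp continuousOn_snd fun q hq => hq
    · intro x a b ha hb
      show F^[p] (Θ (x, ψ (a, C b))) = Θ (f^[p] x, ψ (A a, b))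
      rw [hit, hloc a b ha hb]
  have hfs : ∀ k (x : X), f^[k] (f.symm^[k] x) = x := fun k x => (f.toEquiv.right_inv.iterate k) x
  have hsf : ∀ k (x : X), f.symm^[k] (f^[k] x) = x := fun k x => (f.toEquiv.left_inv.iterate k) x
  have h2 : HomPt F.toHomeomorph (f^[p]) (fun q : X × Es × Eu => Θ (q.1, ψ q.2)) (Θ (x, y))
      (f^[R₁] x) (f.symm^[R₂] x) := by
    refine ⟨⟨R₁, a, ha, ?_⟩, ⟨R₂, b, hb, ?_⟩, ?_, ?_⟩
    · show F^[R₁] (Θ (x, y)) = Θ (f^[R₁] x, ψ (a, 0))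
      rw [hit, hs]
    · show F^[R₂] (Θ (f.symm^[R₂] x, ψ (0, b))) = Θ (x, y)
      rw [hit, hu, hfs]
    · intro j x'
      show F^[j] (Θ (x', ψ (0, 0))) ≠ Θ (x, y)
      rw [hit]
      intro he
      exact hoff j (congrArg Prod.snd (hinj he))
    · intro U hU U' hU' n₀
      have hc1 : ContinuousAt (f^[R₁]) x := (f.continuous.iterate R₁).continuousAt
      have hc2 : ContinuousAt (f.symm^[R₂]) x := (f.symm.continuous.iterate R₂).continuousAt
      obtain ⟨m, hm, x', hx', hx''⟩ := hx (f^[R₁] ⁻¹' U ∩ f.symm^[R₂] ⁻¹' U')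
        (inter_mem (hc1 hU) (hc2 hU')) n₀
      refine ⟨m, hm, f^[R₁] x', hx'.1, ?_⟩
      have h3 : f.symm^[R₂] (f^[R₁ + p * m + R₂] x') ∈ U' := hx''.2
      rw [show R₁ + p * m + R₂ = R₂ + (p * m + R₁) by omega, Function.iterate_add_apply, hsf,
        Function.iterate_add_apply, Function.iterate_mul] at h3
      exact h3
  exact closable_of_gap hr F _ (gapReturns_of_hom F.toHomeomorph h1 h2)

end Pool.Agent.K6.H72.HM
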